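import Pool.Agent.Helper7.BM.Goals2

/-!
# Project BM (MP_57df85_nt), packet PP: product of primes
-/

set_option autoImplicit false

open Finset Filter Topology

namespace Pool.Agent.Helper59.BM

open Pool.Agent.Helper7.BM

theorem log_prod_primes (n : ℕ) (h : n ≤ n ^ 2) :
    Real.log ((∏ l ∈ (Ioc n (n ^ 2)).filter Nat.Prime, l : ℕ) : ℝ) =
      Chebyshev.theta ((n ^ 2 : ℕ) : ℝ) - Chebyshev.theta (n : ℝ) := by
  have h1 : Real.log ((∏ l ∈ (Ioc n (n ^ 2)).filter Nat.Prime, l : ℕ) : ℝ) =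
      ∑ l ∈ (Ioc n (n ^ 2)).filter Nat.Prime, Real.log (l : ℝ) := by
    push_cast
    rw [Real.log_prod]
    intro l hl
    have : l.Prime := (Finset.mem_filter.mp hl).2
    exact_mod_cast this.ne_zero
  rw [h1]
  unfold Chebyshev.theta
  rw [Nat.floor_natCast, Nat.floor_natCast, Finset.sum_filter, Finset.sum_filter,
    Finset.sum_filter]
  have h2 := Finset.sum_Ioc_consecutive (fun l : ℕ => if l.Prime then Real.log (l : ℝ) else 0)
    (Nat.zero_le n) h
  linarith

theorem pp : StmtPP := by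
  have hlo : ∀ᶠ n : ℕ in atTop, Real.log (n : ℝ) ≤ (1 / 100) * (n : ℝ) := by
    have h := (Real.isLittleO_log_id_atTop.comp_tendsto
      (tendsto_natCast_atTop_atTop (R := ℝ))).def (show (0 : ℝ) < 1 / 100 by norm_num)
    filter_upwards [h] with n hn
    simp only [Function.comp, id, Real.norm_eq_abs] at hn
    have := (le_abs_self _).trans hn
    rwa [abs_of_nonneg (Nat.cast_nonneg n)] at this
  obtain ⟨m, hm⟩ := eventually_atTop.mp hlo
  refine ⟨max m 10, ?_⟩
  intro n hn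
  have hnm : m ≤ n := (le_max_left _ _).trans hn
  have hn10 : 10 ≤ n := (le_max_right _ _).trans hn
  have hlog := hm n hnm
  have hnR : (10 : ℝ) ≤ (n : ℝ) := by exact_mod_cast hn10
  have hle : n ≤ n ^ 2 := by nlinarith
  have hpos : 0 < ∏ l ∈ (Ioc n (n ^ 2)).filter Nat.Prime, l := by
    apply Finset.prod_pos
    intro l hl
    exact (Finset.mem_filter.mp hl).2.pos
  have hposR : (0 : ℝ) < ((∏ l ∈ (Ioc n (n ^ 2)).filter Nat.Prime, l : ℕ) : ℝ) := by
    exact_mod_cast hpos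
  have h1 := Chebyshev.theta_ge (n ^ 2)
  have h2 := Chebyshev.theta_le_log4_mul_x (x := (n : ℝ)) (by positivity)
  have h3 := log_prod_primes n hle
  have hl2 : (0.69 : ℝ) < Real.log 2 := by
    have := Real.log_two_gt_d9
    linarith
  have hl2' : Real.log 2 < 0.7 := by
    have := Real.log_two_lt_d9
    linarith
  have hl4 : Real.log 4 = 2 * Real.log 2 := by
    rw [show (4 : ℝ) = 2 ^ 2 by norm_num, Real.log_pow]
    norm_num
  have hsq : √(((n ^ 2 : ℕ) : ℝ)) = (n : ℝ) := by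
    push_cast
    exact Real.sqrt_sq (by positivity)
  have hlogsq : Real.log (((n ^ 2 : ℕ) : ℝ)) = 2 * Real.log (n : ℝ) := by
    push_cast
    rw [Real.log_pow]
    norm_num
  have hlog1 : Real.log (((n ^ 2 : ℕ) : ℝ) + 1) ≤ (n : ℝ) := by
    have ha : (((n ^ 2 : ℕ) : ℝ) + 1) ≤ 2 * (n : ℝ) ^ 2 := by
      push_cast
      nlinarith
    calc Real.log (((n ^ 2 : ℕ) : ℝ) + 1) ≤ Real.log (2 * (n : ℝ) ^ 2) :=
          Real.log_le_log (by positivity) ha
      _ = Real.log 2 + 2 * Real.log (n : ℝ) := by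
          rw [Real.log_mul (by norm_num) (by positivity), Real.log_pow]
          norm_num
      _ ≤ (n : ℝ) := by linarith
  rw [hsq, hlogsq] at h1
  have hfin : (n : ℝ) * Real.log 2 ≤
      Real.log ((∏ l ∈ (Ioc n (n ^ 2)).filter Nat.Prime, l : ℕ) : ℝ) := by
    rw [h3]
    push_cast at h1 hlog1 ⊢
    rw [hl4] at h2
    have e1 : (n : ℝ) * Real.log (n : ℝ) ≤ (n : ℝ) * (1 / 100 * (n : ℝ)) :=
      mul_le_mul_of_nonneg_left hlog (by positivity)
    have e2 : (n : ℝ) ^ 2 * 0.69 ≤ (n : ℝ) ^ 2 * Real.log 2 :=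
      mul_le_mul_of_nonneg_left hl2.le (by positivity)
    have e3 : (n : ℝ) * Real.log 2 ≤ (n : ℝ) * 0.7 :=
      mul_le_mul_of_nonneg_left hl2'.le (by positivity)
    nlinarith
  have hfin2 : Real.log ((2 : ℝ) ^ n) ≤
      Real.log ((∏ l ∈ (Ioc n (n ^ 2)).filter Nat.Prime, l : ℕ) : ℝ) := by
    rw [Real.log_pow]
    exact hfin
  have := (Real.log_le_log_iff (by positivity) hposR).mp hfin2
  exact_mod_cast this

end Pool.Agent.Helper59.BM
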